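import Pool.Agent.Run7.h747.ZB.Defs

set_option autoImplicit false

namespace Run7.h633.ZB

open Run7.h747.ZB

noncomputable section

theorem card_j (J : ℕ) (m : ℤ) :
    ((Finset.range J).filter (fun j => (2 : ℤ) ^ j ≤ m ∧ m ≤ 8 * 2 ^ j)).card ≤ 4 := by
  set s := (Finset.range J).filter (fun j => (2 : ℤ) ^ j ≤ m ∧ m ≤ 8 * 2 ^ j) with hs
  rcases Finset.eq_empty_or_nonempty s with h | h
  · rw [h]; simp
  · obtain ⟨j0, hj0, hmin⟩ := s.exists_min_image id h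
    have hsub : s ⊆ Finset.Icc j0 (j0 + 3) := by
      intro j hj
      rw [Finset.mem_Icc]
      refine ⟨hmin j hj, ?_⟩
      have h1 := (Finset.mem_filter.1 hj).2.1
      have h2 := (Finset.mem_filter.1 hj0).2.2
      have h3 : (2 : ℤ) ^ j ≤ 2 ^ (j0 + 3) := by
        rw [pow_add]; linarith
      exact (pow_le_pow_iff_right₀ (by norm_num)).1 h3
    have := Finset.card_le_card hsub
    rw [Nat.card_Icc] at this
    omega

theorem sum_pow_le {ι : Type*} (s : Finset ι) (x : ι → ℝ) (hx : ∀ i ∈ s, 0 ≤ x i) (k : ℕ)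
    (hk : 1 ≤ k) : ∑ i ∈ s, x i ^ k ≤ (∑ i ∈ s, x i) ^ k := by
  obtain ⟨l, rfl⟩ : ∃ l, k = l + 1 := ⟨k - 1, by omega⟩
  have h1 : ∀ i ∈ s, x i ^ (l + 1) ≤ x i * (∑ i ∈ s, x i) ^ l := by
    intro i hi
    rw [pow_succ, mul_comm]
    exact mul_le_mul_of_nonneg_left
      (pow_le_pow_left₀ (hx i hi) (Finset.single_le_sum hx hi) l) (hx i hi)
  refine (Finset.sum_le_sum h1).trans ?_
  rw [← Finset.sum_mul, pow_succ, mul_comm]

/-- the row sums -/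
def Rm (c : ℤ → ℂ) (R m : ℤ) : ℝ := ∑ n ∈ Finset.Icc (1 : ℤ) R, 4 * ((n : ℝ) * m) * ‖U c n m‖ ^ 2

theorem Rm_nonneg (c : ℤ → ℂ) (R m : ℤ) (hm : 1 ≤ m) : 0 ≤ Rm c R m := by
  unfold Rm
  apply Finset.sum_nonneg
  intro n hn
  have h1 : (1 : ℤ) ≤ n := (Finset.mem_Icc.1 hn).1
  have h2 : (0 : ℝ) ≤ n := by exact_mod_cast (by omega : (0 : ℤ) ≤ n)
  have h3 : (0 : ℝ) ≤ m := by exact_mod_cast (by omega : (0 : ℤ) ≤ m)
  positivity

/-- the constant -/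
def C0 (k : ℕ) : ℝ := (10 ^ 9 : ℝ) ^ ((k : ℝ) / 2) * (8 : ℝ) ^ ((k : ℝ) / 2 - 1)

theorem blk (hH : S_HARM) {c : ℤ → ℂ} (hc : Dec c) (k : ℕ) (hk : 2 ≤ k) (R : ℤ) (j : ℕ)
    (hR : 8 * (2 : ℤ) ^ j ≤ R) :
    ((2 : ℝ) ^ j) ^ (2 * k + 1) * (∑ q ∈ Finset.Ico (2 * (2 : ℤ) ^ j) (4 * 2 ^ j), ‖c q‖ ^ 2) ^ k
      ≤ C0 k * ∑ m ∈ Finset.Icc ((2 : ℤ) ^ j) (8 * 2 ^ j), (Rm c R m) ^ ((k : ℝ) / 2) := by
  set N : ℝ := (2 : ℝ) ^ j with hN
  have hN0 : 0 < N := by positivity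
  set B : ℝ := ∑ q ∈ Finset.Ico (2 * (2 : ℤ) ^ j) (4 * 2 ^ j), ‖c q‖ ^ 2 with hB
  have hB0 : 0 ≤ B := Finset.sum_nonneg fun q _ => by positivity
  have h2j : (1 : ℤ) ≤ 2 ^ j := one_le_pow₀ (by norm_num)
  set s := Finset.Icc ((2 : ℤ) ^ j) (8 * 2 ^ j) with hs
  have hs1 : ∀ m ∈ s, 1 ≤ m := fun m hm => h2j.trans (Finset.mem_Icc.1 hm).1
  have hRn : ∀ m ∈ s, 0 ≤ Rm c R m := fun m hm => Rm_nonneg c R m (hs1 m hm)
  have h1 := hH c hc (2 ^ j) Nat.one_le_two_pow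
  have h2 : N ^ 5 * B ^ 2 ≤ 10 ^ 9 * ∑ m ∈ s, Rm c R m := by
    have e1 : ((2 ^ j : ℕ) : ℝ) = N := by push_cast; rfl
    have e2 : ((2 ^ j : ℕ) : ℤ) = (2 : ℤ) ^ j := by push_cast; rfl
    rw [e1, e2] at h1
    refine h1.trans (mul_le_mul_of_nonneg_left ?_ (by norm_num))
    rw [Finset.sum_comm]
    apply Finset.sum_le_sum
    intro m hm
    have hm1 := hs1 m hm
    have hm0 : (0 : ℝ) ≤ m := by exact_mod_cast (by omega : (0 : ℤ) ≤ m)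
    unfold Rm
    have hsub : s ⊆ Finset.Icc (1 : ℤ) R := by
      intro n hn
      rw [Finset.mem_Icc] at *
      exact ⟨h2j.trans hn.1, (hn.2).trans hR⟩
    refine (Finset.sum_le_sum (g := fun n : ℤ => 4 * ((n : ℝ) * m) * ‖U c n m‖ ^ 2) ?_).trans
      (Finset.sum_le_sum_of_subset_of_nonneg hsub ?_)
    · intro n hn
      have hn0 : (0 : ℝ) ≤ n := by exact_mod_cast (by have := hs1 n hn; omega : (0 : ℤ) ≤ n)
      have : 0 ≤ (n : ℝ) * m * ‖U c n m‖ ^ 2 := by positivity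
      show (n : ℝ) * m * ‖U c n m‖ ^ 2 ≤ 4 * ((n : ℝ) * m) * ‖U c n m‖ ^ 2
      linarith
    · intro n hn _
      have hn0 : (0 : ℝ) ≤ n := by
        exact_mod_cast (by have := (Finset.mem_Icc.1 hn).1; omega : (0 : ℤ) ≤ n)
      positivity
  set T : ℝ := ∑ m ∈ s, Rm c R m with hT
  have hT0 : 0 ≤ T := Finset.sum_nonneg hRn
  set x : ℝ := (k : ℝ) / 2 with hx
  have hk2 : (2 : ℝ) ≤ k := by exact_mod_cast hk
  have hx1 : 1 ≤ x := by rw [hx]; linarith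
  have hx0 : 0 ≤ x := by linarith
  have h3 : (N ^ 5 * B ^ 2) ^ x ≤ (10 ^ 9 * T) ^ x :=
    Real.rpow_le_rpow (by positivity) h2 hx0
  have h4 : (N ^ 5 * B ^ 2) ^ x = N ^ (5 * x) * B ^ k := by
    rw [Real.mul_rpow (by positivity) (by positivity), ← Real.rpow_natCast N 5,
      ← Real.rpow_mul hN0.le, ← Real.rpow_natCast B 2, ← Real.rpow_mul hB0,
      ← Real.rpow_natCast B k]
    congr 2
    rw [hx]; push_cast; ring
  have h5 : (10 ^ 9 * T) ^ x = (10 ^ 9) ^ x * T ^ x := Real.mul_rpow (by positivity) hT0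
  have h6 : T ^ x ≤ (s.card : ℝ) ^ (x - 1) * ∑ m ∈ s, (Rm c R m) ^ x :=
    Real.rpow_sum_le_const_mul_sum_rpow_of_nonneg s hx1 hRn
  have hcard : (s.card : ℝ) ≤ 8 * N := by
    rw [hs, Int.card_Icc]
    have : ((8 * 2 ^ j + 1 - 2 ^ j : ℤ).toNat : ℤ) ≤ 8 * 2 ^ j := by
      rw [Int.toNat_of_nonneg (by linarith)]
      linarith
    have h7 : (((8 * 2 ^ j + 1 - 2 ^ j : ℤ).toNat : ℤ) : ℝ) ≤ ((8 * 2 ^ j : ℤ) : ℝ) := by
      exact_mod_cast this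
    push_cast at h7
    rw [hN]
    exact_mod_cast h7
  have h8 : (s.card : ℝ) ^ (x - 1) ≤ (8 * N) ^ (x - 1) :=
    Real.rpow_le_rpow (by positivity) hcard (by linarith)
  have hS0 : 0 ≤ ∑ m ∈ s, (Rm c R m) ^ x :=
    Finset.sum_nonneg fun m hm => Real.rpow_nonneg (hRn m hm) _
  have h9 : N ^ (5 * x) * B ^ k ≤ (10 ^ 9) ^ x * ((8 * N) ^ (x - 1) *
      ∑ m ∈ s, (Rm c R m) ^ x) := by
    rw [← h4]
    refine h3.trans ?_
    rw [h5]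
    apply mul_le_mul_of_nonneg_left _ (by positivity)
    exact h6.trans (mul_le_mul_of_nonneg_right h8 hS0)
  have h10 : N ^ (2 * k + 1) * B ^ k = N ^ (1 - x) * (N ^ (5 * x) * B ^ k) := by
    rw [← mul_assoc, ← Real.rpow_add hN0, ← Real.rpow_natCast N (2 * k + 1)]
    congr 2
    rw [hx]; push_cast; ring
  rw [h10]
  refine (mul_le_mul_of_nonneg_left h9 (by positivity)).trans (le_of_eq ?_)
  rw [Real.mul_rpow (by norm_num) hN0.le]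
  have h11 : N ^ (1 - x) * N ^ (x - 1) = 1 := by
    rw [← Real.rpow_add hN0]
    norm_num
  unfold C0
  calc N ^ (1 - x) * ((10 ^ 9) ^ x * (8 ^ (x - 1) * N ^ (x - 1) * ∑ m ∈ s, Rm c R m ^ x))
      = (N ^ (1 - x) * N ^ (x - 1)) * ((10 ^ 9) ^ x * 8 ^ (x - 1) * ∑ m ∈ s, Rm c R m ^ x) := by
        ring
    _ = (10 ^ 9) ^ x * 8 ^ (x - 1) * ∑ m ∈ s, Rm c R m ^ x := by rw [h11, one_mul]

theorem sumblk (hH : S_HARM) {c : ℤ → ℂ} (hc : Dec c) (k : ℕ) (hk : 2 ≤ k) (Z : ℝ)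
    (hZ : ∀ R : ℕ, ∑ m ∈ Finset.Icc (1 : ℤ) R, (∑ n ∈ Finset.Icc (1 : ℤ) R,
      4 * ((n : ℝ) * m) * ‖U c n m‖ ^ 2) ^ ((k : ℝ) / 2) ≤ Z) (J : ℕ) :
    ∑ j ∈ Finset.range J, ((2 : ℝ) ^ j) ^ (2 * k + 1) *
      (∑ q ∈ Finset.Ico (2 * (2 : ℤ) ^ j) (4 * 2 ^ j), ‖c q‖ ^ 2) ^ k ≤ 4 * C0 k * Z := by
  have hC0 : 0 ≤ C0 k := by unfold C0; positivity
  have hR := hZ (8 * 2 ^ J)
  set R : ℤ := ((8 * 2 ^ J : ℕ) : ℤ) with hRdef
  have hRv : R = 8 * (2 : ℤ) ^ J := by rw [hRdef]; push_cast; rfl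
  have h1 : ∀ j ∈ Finset.range J, ((2 : ℝ) ^ j) ^ (2 * k + 1) *
      (∑ q ∈ Finset.Ico (2 * (2 : ℤ) ^ j) (4 * 2 ^ j), ‖c q‖ ^ 2) ^ k
      ≤ C0 k * ∑ m ∈ Finset.Icc ((2 : ℤ) ^ j) (8 * 2 ^ j), (Rm c R m) ^ ((k : ℝ) / 2) := by
    intro j hj
    apply blk hH hc k hk
    rw [hRv]
    have : (2 : ℤ) ^ j ≤ 2 ^ J :=
      pow_le_pow_right₀ (by norm_num) (Finset.mem_range.1 hj).le
    linarith
  refine (Finset.sum_le_sum h1).trans ?_
  rw [← Finset.mul_sum]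
  have h2 : ∑ j ∈ Finset.range J, ∑ m ∈ Finset.Icc ((2 : ℤ) ^ j) (8 * 2 ^ j),
      (Rm c R m) ^ ((k : ℝ) / 2) ≤ 4 * ∑ m ∈ Finset.Icc (1 : ℤ) R, (Rm c R m) ^ ((k : ℝ) / 2) := by
    have h3 : ∀ j ∈ Finset.range J, ∑ m ∈ Finset.Icc ((2 : ℤ) ^ j) (8 * 2 ^ j),
        (Rm c R m) ^ ((k : ℝ) / 2) = ∑ m ∈ Finset.Icc (1 : ℤ) R,
          if (2 : ℤ) ^ j ≤ m ∧ m ≤ 8 * 2 ^ j then (Rm c R m) ^ ((k : ℝ) / 2) else 0 := by
      intro j hj
      rw [← Finset.sum_filter]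
      apply Finset.sum_congr _ (fun _ _ => rfl)
      ext m
      rw [Finset.mem_filter, Finset.mem_Icc, Finset.mem_Icc]
      have ha : (1 : ℤ) ≤ 2 ^ j := one_le_pow₀ (by norm_num)
      have hb : (2 : ℤ) ^ j ≤ 2 ^ J :=
        pow_le_pow_right₀ (by norm_num) (Finset.mem_range.1 hj).le
      constructor
      · rintro ⟨h4, h5⟩
        exact ⟨⟨ha.trans h4, by rw [hRv]; linarith⟩, h4, h5⟩
      · rintro ⟨_, h4, h5⟩
        exact ⟨h4, h5⟩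
    rw [Finset.sum_congr rfl h3, Finset.sum_comm, Finset.mul_sum]
    apply Finset.sum_le_sum
    intro m hm
    have hm1 : 1 ≤ m := (Finset.mem_Icc.1 hm).1
    rw [← Finset.sum_filter, Finset.sum_const, nsmul_eq_mul]
    apply mul_le_mul_of_nonneg_right _ (Real.rpow_nonneg (Rm_nonneg c R m hm1) _)
    exact_mod_cast card_j J m
  have h4 : ∑ m ∈ Finset.Icc (1 : ℤ) R, (Rm c R m) ^ ((k : ℝ) / 2) ≤ Z := hR
  calc C0 k * ∑ j ∈ Finset.range J, ∑ m ∈ Finset.Icc ((2 : ℤ) ^ j) (8 * 2 ^ j),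
      (Rm c R m) ^ ((k : ℝ) / 2)
      ≤ C0 k * (4 * ∑ m ∈ Finset.Icc (1 : ℤ) R, (Rm c R m) ^ ((k : ℝ) / 2)) :=
        mul_le_mul_of_nonneg_left h2 hC0
    _ ≤ C0 k * (4 * Z) := mul_le_mul_of_nonneg_left (by linarith) hC0
    _ = 4 * C0 k * Z := by ring

theorem split_blocks (f : ℕ → ℝ) (J : ℕ) :
    ∑ q ∈ Finset.Ico 2 (2 * 2 ^ J), f q
      = ∑ j ∈ Finset.range J, ∑ q ∈ Finset.Ico (2 * 2 ^ j) (4 * 2 ^ j), f q := by
  induction J with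
  | zero => simp
  | succ J ih =>
    rw [Finset.sum_range_succ, ← ih]
    have e : (4 : ℕ) * 2 ^ J = 2 * 2 ^ (J + 1) := by rw [pow_succ]; ring
    rw [e]
    have h1 : 2 ≤ 2 * 2 ^ J := by
      have := Nat.one_le_two_pow (n := J); omega
    have h2 : 2 * 2 ^ J ≤ 2 * 2 ^ (J + 1) := by
      rw [pow_succ]; omega
    exact (Finset.sum_Ico_consecutive f h1 h2).symm

theorem t_BLK (hH : S_HARM) : S_BLK := by
  intro k hk
  have hC0 : 0 < C0 k := by unfold C0; positivity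
  refine ⟨4 ^ (2 * k + 1) * (4 * C0 k), by positivity, ?_⟩
  intro c hc Z hZ J
  have hZ0 : 0 ≤ Z := by
    have := hZ 0
    simpa using this
  have h1 := sumblk hH hc k hk Z hZ J
  have hfour : (1 : ℝ) ≤ 4 ^ (2 * k + 1) := one_le_pow₀ (by norm_num)
  refine ⟨h1.trans ?_, ?_⟩
  · have : 0 ≤ 4 * C0 k * Z := by positivity
    nlinarith
  · rw [split_blocks]
    have h2 : ∀ j ∈ Finset.range J, ∑ q ∈ Finset.Ico (2 * 2 ^ j : ℕ) (4 * 2 ^ j : ℕ),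
        (q : ℝ) ^ (2 * k + 1) * ‖c (q : ℤ)‖ ^ (2 * k) ≤ 4 ^ (2 * k + 1) *
          (((2 : ℝ) ^ j) ^ (2 * k + 1) *
      (∑ q ∈ Finset.Ico (2 * (2 : ℤ) ^ j) (4 * 2 ^ j), ‖c q‖ ^ 2) ^ k) := by
      intro j _
      have e1 : ∑ q ∈ Finset.Ico (2 * (2 : ℤ) ^ j) (4 * 2 ^ j), ‖c q‖ ^ 2
          = ∑ q ∈ Finset.Ico (2 * 2 ^ j : ℕ) (4 * 2 ^ j), ‖c (q : ℤ)‖ ^ 2 := by
        have h3 : Finset.Ico (2 * (2 : ℤ) ^ j) (4 * 2 ^ j)
            = (Finset.Ico (2 * 2 ^ j : ℕ) (4 * 2 ^ j)).image (fun q : ℕ => (q : ℤ)) := by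
          ext x
          rw [Finset.mem_image, Finset.mem_Ico]
          constructor
          · rintro ⟨hx1, hx2⟩
            have hx0 : 0 ≤ x := le_trans (by positivity) hx1
            refine ⟨x.toNat, ?_, Int.toNat_of_nonneg hx0⟩
            rw [Finset.mem_Ico]
            constructor
            · zify; rw [Int.toNat_of_nonneg hx0]; exact hx1
            · zify; rw [Int.toNat_of_nonneg hx0]; exact hx2
          · rintro ⟨q, hq, rfl⟩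
            rw [Finset.mem_Ico] at hq
            exact ⟨by exact_mod_cast hq.1, by exact_mod_cast hq.2⟩
        rw [h3, Finset.sum_image (fun a _ b _ h => by exact_mod_cast h)]
      rw [e1]
      have h4 : ∀ q ∈ Finset.Ico (2 * 2 ^ j : ℕ) (4 * 2 ^ j),
          (q : ℝ) ^ (2 * k + 1) * ‖c (q : ℤ)‖ ^ (2 * k) ≤
            (4 * (2 : ℝ) ^ j) ^ (2 * k + 1) * (‖c (q : ℤ)‖ ^ 2) ^ k := by
        intro q hq
        rw [← pow_mul]
        apply mul_le_mul_of_nonneg_right _ (by positivity)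
        apply pow_le_pow_left₀ (by positivity)
        have := (Finset.mem_Ico.1 hq).2.le
        exact_mod_cast this
      refine (Finset.sum_le_sum h4).trans ?_
      rw [← Finset.mul_sum, mul_pow, mul_assoc]
      apply mul_le_mul_of_nonneg_left _ (by positivity)
      apply mul_le_mul_of_nonneg_left _ (by positivity)
      exact sum_pow_le _ _ (fun _ _ => by positivity) k (by omega)
    refine (Finset.sum_le_sum h2).trans ?_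
    rw [← Finset.mul_sum]
    refine (mul_le_mul_of_nonneg_left h1 (by positivity)).trans (le_of_eq (by ring))

end

end Run7.h633.ZB
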